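import Pool.Agent.helper1.FI4.SpecHT

/-!
# GAV: averaging over powers
-/

set_option autoImplicit false

namespace Pool.Agent.FI4

theorem GAV : GAV_stmt := by
  classical
  intro G _ R n hn hR hs f c h
  have key : ∀ s : ℕ, s.Coprime n → ∑ u ∈ R, f (u ^ s) = ∑ u ∈ R, f u := by
    intro s hsn
    have hinj : Set.InjOn (fun u : G => u ^ s) (R : Set G) := by
      intro u hu v hv huv
      simp only at huv
      rcases Nat.lt_or_ge 1 n with h1 | h1
      · obtain ⟨m, -, hm⟩ := Nat.exists_mul_mod_eq_one_of_coprime hsn h1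
        have h2 : ∀ w : G, w ^ n = 1 → (w ^ s) ^ m = w := by
          intro w hw
          rw [← pow_mul, ← Nat.mod_add_div (s * m) n, hm, pow_add, pow_one, pow_mul, hw, one_pow, mul_one]
        rw [← h2 u (hR u hu), ← h2 v (hR v hv), huv]
      · have h2 : n = 1 := by omega
        subst h2
        have h3 := hR u hu
        have h4 := hR v hv
        rw [pow_one] at h3 h4
        rw [h3, h4]
    have himg : R.image (fun u : G => u ^ s) = R := by
      apply Finset.eq_of_subset_of_card_le
      · intro w hw
        obtain ⟨u, hu, rfl⟩ := Finset.mem_image.1 hw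
        exact hs u hu s hsn
      · rw [Finset.card_image_of_injOn hinj]
    have h3 : ∑ w ∈ R.image (fun u : G => u ^ s), f w = ∑ u ∈ R, f (u ^ s) :=
      Finset.sum_image fun u hu v hv => hinj hu hv
    rw [← h3, himg]
  have h1 : (c * Nat.totient n) * R.card ≤ Nat.totient n * ∑ u ∈ R, f u := by
    calc (c * Nat.totient n) * R.card = ∑ u ∈ R, c * (Nat.totient n : ℝ) := by
          rw [Finset.sum_const, nsmul_eq_mul, mul_comm]
      _ ≤ ∑ u ∈ R, ∑ s ∈ (Finset.range n).filter (fun s => s.Coprime n), f (u ^ s) :=
          Finset.sum_le_sum h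
      _ = ∑ s ∈ (Finset.range n).filter (fun s => s.Coprime n), ∑ u ∈ R, f (u ^ s) :=
          Finset.sum_comm
      _ = ∑ s ∈ (Finset.range n).filter (fun s => s.Coprime n), ∑ u ∈ R, f u :=
          Finset.sum_congr rfl fun s hs' => key s (Finset.mem_filter.1 hs').2
      _ = Nat.totient n * ∑ u ∈ R, f u := by
          rw [Finset.sum_const, nsmul_eq_mul]
          congr 2
          rw [Nat.totient_eq_card_coprime]
          congr 1
          refine Finset.filter_congr fun s _ => ?_
          rw [Nat.coprime_comm]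
  have h2 : (0 : ℝ) < Nat.totient n := by exact_mod_cast Nat.totient_pos.2 hn
  have h3 : (Nat.totient n : ℝ) * (c * R.card) ≤ Nat.totient n * ∑ u ∈ R, f u := by
    calc (Nat.totient n : ℝ) * (c * R.card) = (c * Nat.totient n) * R.card := by ring
      _ ≤ _ := h1
  exact le_of_mul_le_mul_left h3 h2

end Pool.Agent.FI4
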