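import Pool.Agent.helper1.FI4.SpecHT

/-!
# HT4: all heights are zero (assembly of block HEIGHT)
-/

set_option autoImplicit false

namespace Pool.Agent.FI4

open Pool.Agent.helper58.DC Pool.Agent.DI Pool.Agent.GR Pool.Agent.OB Pool.Agent.DR Pool.Agent.FI Pool.Agent.FI3

theorem HTA_cz_bot (G : Type) [Group G] : cz (⊥ : Subgroup G) = ⊤ := by
  rw [eq_top_iff]
  intro g _
  rw [Subgroup.mem_centralizer_iff]
  intro h hh
  rw [SetLike.mem_coe, Subgroup.mem_bot] at hh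
  rw [hh, one_mul, mul_one]

theorem HTA_iI_pos {G : Type} [Group G] [Finite G] (M : Ideal (integralClosure ℤ ℂ)) (D : Subgroup G)
    (θ : G → ℂ) : 1 ≤ iI M D θ := by
  unfold iI Subgroup.relIndex
  exact Nat.one_le_iff_ne_zero.2 Subgroup.index_ne_zero_of_finite

theorem HTA_RG_le {G : Type} [Group G] [Finite G] (M : Ideal (integralClosure ℤ ℂ)) (D : Subgroup G)
    (θ : G → ℂ) : (RG M D θ).ncard ≤ Nat.card D := by
  have h1 : (RG M D θ) ⊆ (D : Set G) := fun u hu => hu.1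
  have h2 := Set.ncard_le_ncard h1 (Set.toFinite _)
  exact h2

/-- `RG` is closed under powers with exponents prime to `|D|`. -/
theorem HTA_RG_pow {G : Type} [Group G] [Finite G] {M : Ideal (integralClosure ℤ ℂ)} {D : Subgroup G}
    {θ : G → ℂ} {u : G} (hu : u ∈ RG M D θ) {s : ℕ} (hs : s.Coprime (Nat.card D)) : u ^ s ∈ RG M D θ := by
  refine ⟨D.pow_mem hu.1 s, fun t ht htu => hu.2 t ht ?_⟩
  have h1 : (⟨u, hu.1⟩ : D) ^ Nat.card D = 1 := pow_card_eq_one'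
  have h2 : u ^ Nat.card D = 1 := congrArg (Subtype.val) h1
  have h3 : s.Coprime (orderOf u) := Nat.Coprime.coprime_dvd_right (orderOf_dvd_of_pow_eq_one h2) hs
  obtain ⟨m, hm⟩ := exists_pow_eq_self_of_coprime h3
  have h4 : Commute t (u ^ s) := htu
  have h5 := h4.pow_right m
  rw [hm] at h5
  exact h5

theorem HTA_p {G : Type} [Group G] [Finite G] {p : ℕ} {M : Ideal (integralClosure ℤ ℂ)} {D : Subgroup G}
    {θ : G → ℂ} (h : Hyp p M D θ) : p ≠ 2 := by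
  rintro rfl
  unfold Hyp at h
  have h1 := HTA_iI_pos M D θ
  have h2 := HTA_RG_le M D θ
  have h3 : Nat.card D ≤ iI M D θ * Nat.card D := Nat.le_mul_of_pos_left _ h1
  omega

/-- Row HT4. -/
theorem HT4 (hLOA : LOA_stmt) (hGRG : GRG_stmt) (hQID : QID_stmt) (hQHT : QHT_stmt) (hIAP : IAP_stmt)
    (hNAG : NAG_stmt) (hDPX : DPX_stmt) (hGAV : GAV_stmt) (hBS1 : BS1_stmt) (hTPR : FI.TPR_stmt) :
    HT4_stmt := by
  classical
  intro p M hS G _ _ D x θ χ hR hHyp ψ hψ a ha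
  have hp := hS.pr
  have : Fact p.Prime := Fact.mk hp
  have hp2 : p ≠ 2 := HTA_p hHyp
  have lo := hLOA p M hS G D x θ χ hR
  obtain ⟨-, hT2, -⟩ := hTPR p M hS G
  have hθ : SB M ⊤ θ χ := (hT2 θ χ).1 hR.ind
  have hψB : ψ ∈ Bl M (⊤ : Subgroup G) θ := ⟨hψ.1, ((hT2 ψ χ).1 hψ.2).trans hθ.symm⟩
  have hcz := HTA_cz_bot G
  obtain ⟨i, hi⟩ := hQID p M hS G D x θ χ hR ⊥ bot_le
  obtain ⟨N, d, hN, hd, hψ1, -, hv⟩ := hQHT p M hS G D x θ χ hR ⊥ bot_le i hi ψ
    (by rw [hcz]; exact hψB)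
  rw [hcz, Subgroup.card_top] at hv
  have hvD : padicValNat p (Nat.card D) = a := by
    rw [ha, padicValNat.prime_pow]
  by_cases hN0 : padicValNat p N = 0
  · refine ⟨d, hψ1, ?_⟩
    rw [Subgroup.card_top]
    omega
  exfalso
  have hu1 : ∀ u ∈ RG M D θ, dd M (Cz (⊤ : Subgroup G) u) θ ψ u ≠ 0 ∧
      IntAt M (dd M (Cz (⊤ : Subgroup G) u) θ ψ u / (p : ℂ)) := fun u hu =>
    hIAP p M hS G D x θ χ hR u hu.1 (hGRG p M hS hp2 G D x θ χ lo u hu).2 ψ hψB d hψ1 hd (by omega)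
  obtain ⟨n, hn⟩ : ∃ n, n = Nat.card D := ⟨_, rfl⟩
  have hnpos : 0 < n := by
    rw [hn]
    exact Nat.card_pos
  have hun : ∀ u ∈ RG M D θ, u ^ n = 1 := by
    intro u hu
    have h1 : (⟨u, hu.1⟩ : D) ^ Nat.card D = 1 := pow_card_eq_one'
    rw [hn]
    exact congrArg (Subtype.val) h1
  have hnz : NeZero n := ⟨hnpos.ne'⟩
  have hζ := Complex.isPrimitiveRoot_exp n hnpos.ne'
  obtain ⟨ζ, hζe⟩ : ∃ ζ : ℂ, ζ = Complex.exp (2 * Real.pi * Complex.I / n) := ⟨_, rfl⟩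
  rw [← hζe] at hζ
  obtain ⟨R, hRe⟩ : ∃ R : Finset G, R = (Set.toFinite (RG M D θ)).toFinset := ⟨_, rfl⟩
  have hRm : ∀ u, u ∈ R ↔ u ∈ RG M D θ := fun u => by rw [hRe, Set.Finite.mem_toFinset]
  have key := hGAV G R n hnpos (fun u hu => hun u ((hRm u).1 hu))
    (fun u hu s hs => (hRm _).2 (HTA_RG_pow ((hRm u).1 hu) (by rw [← hn]; exact hs)))
    (fun u => ‖dd M (Cz (⊤ : Subgroup G) u) θ ψ u‖ ^ 2) ((p : ℝ) ^ 2) (by
      intro u hu
      have huR := (hRm u).1 hu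
      obtain ⟨P, hP⟩ := hDPX G M ⊤ θ ψ hψ.1 u (Subgroup.mem_top u) n hnpos (hun u huR) ζ hζ
      have h1 := hNAG p M hS n hnpos P (by
        intro μ hμ
        rw [mem_primitiveRoots hnpos] at hμ
        obtain ⟨s, -, hs, rfl⟩ := hζ.isPrimitiveRoot_iff.1 hμ
        rw [← hP s hs]
        exact hu1 _ (HTA_RG_pow huR (by rw [← hn]; exact hs)))
      refine h1.trans (le_of_eq ?_)
      symm
      refine Finset.sum_bij (fun s _ => ζ ^ s) ?_ ?_ ?_ ?_
      · intro s hs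
        rw [Finset.mem_filter, Finset.mem_range] at hs
        rw [mem_primitiveRoots hnpos]
        exact hζ.pow_of_coprime s hs.2
      · intro s hs t ht hst
        rw [Finset.mem_filter, Finset.mem_range] at hs ht
        exact hζ.pow_inj hs.1 ht.1 hst
      · intro μ hμ
        rw [mem_primitiveRoots hnpos] at hμ
        obtain ⟨s, hs1, hs2, hs3⟩ := hζ.isPrimitiveRoot_iff.1 hμ
        exact ⟨s, by rw [Finset.mem_filter, Finset.mem_range]; exact ⟨hs1, hs2⟩, hs3⟩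
      · intro s hs
        rw [Finset.mem_filter] at hs
        rw [hP s hs.2])
  have h2 := hBS1 p M hS hp2 G D x θ χ lo ψ hψB
  rw [finsum_mem_eq_finite_toFinset_sum _ (Set.toFinite (RG M D θ)), ← hRe] at h2
  have h3 := key.trans h2
  have h4 : R.card = (RG M D θ).ncard := by
    rw [hRe, Set.ncard_eq_toFinset_card (RG M D θ) (Set.toFinite _)]
  rw [h4] at h3
  have h5 : p ^ 2 * (RG M D θ).ncard ≤ Nat.card D * iI M D θ := by exact_mod_cast h3
  unfold Hyp at hHyp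
  have h6 : p - 1 ≤ p ^ 2 := by
    have h7 : p ≤ p ^ 2 := by nlinarith [hp.two_le]
    omega
  have h7 : (p - 1) * (RG M D θ).ncard ≤ p ^ 2 * (RG M D θ).ncard := Nat.mul_le_mul_right _ h6
  have h8 : Nat.card D * iI M D θ = iI M D θ * Nat.card D := mul_comm _ _
  omega

end Pool.Agent.FI4
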