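import Pool.Agent.helper1.FI3.AllH3
import Pool.Agent.helper1.FI4.HT4
import Pool.Agent.helper1.FI4.GAV
import Pool.Agent.helper28.FI4.UNV
import Pool.Agent.helper10.FI4.HTD
import Pool.Agent.helper74.FI4.UDD
import Pool.Agent.helper24.FI4.NRC
import Pool.Agent.helper79.FI4.NAG
import Pool.Agent.helper92.FI4.DPX
import Pool.Agent.helper98.FI4.BS1
import Pool.Agent.helper73.FI4.IAP

/-!
# Project fi4 (MP_baa4d7_al), block HEIGHT: assembly

`hHT4`: all heights are zero (`HT4_stmt`), from the rows LOA, GRG, BES4 of block P4.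
-/

set_option autoImplicit false

namespace Pool.Agent.FI4.AllHT

open Pool.Agent Pool.Agent.FI4 Pool.Agent.FI3 Pool.Agent.FI Pool.Agent.GR Pool.Agent.helper58.DC Pool.Agent.DI Pool.Agent.OB

theorem hUNV : UNV_stmt := UNV AllH3.hQHG AllQ2.dQH0 AllQ2.dQCG AllQ2.dQAV AllA.dBET GR.All.dCCI
theorem hHTD : HTD_stmt := HTD AllC.cHTN GR.All.dC3
theorem hUDD : UDD_stmt := UDD hUNV hHTD AllH3.hTRW AllH3.hQNW AllQ2.dQID AllR.rRR1
theorem hNRC : NRC_stmt := NRC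
theorem hNAG : NAG_stmt := NAG hNRC
theorem hDPX : DPX_stmt := DPX AllQ.qQRS AllQ.qQCE
theorem hGAV : GAV_stmt := GAV
theorem hIAP : IAP_stmt := IAP hUDD AllH3.hNZ3
theorem hBS1 (hBES : BES4_stmt) : BS1_stmt := BS1 hBES AllA.dTPR
theorem hHT4 (hLOA : LOA_stmt) (hGRG : GRG_stmt) (hBES : BES4_stmt) : HT4_stmt :=
  HT4 hLOA hGRG AllQ2.dQID (AllQ2.eQHT AllQ.qQEV) hIAP hNAG hDPX hGAV (hBS1 hBES) AllA.dTPR

end Pool.Agent.FI4.AllHT
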