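import Pool.Agent.helper1.FI4.AllHT
import Pool.Agent.helper59.FI4.AllP4x

/-!
# Project fi4 (MP_baa4d7_al), block HEIGHT: the output without hypotheses
-/

set_option autoImplicit false

namespace Pool.Agent.FI4.AllHT

open Pool.Agent Pool.Agent.FI4

theorem tBS1 : BS1_stmt := hBS1 AllP4.pBES4

/-- All heights are zero. -/
theorem tHT4 : HT4_stmt := hHT4 AllP4.pLOA AllP4.pGRG AllP4.pBES4

end Pool.Agent.FI4.AllHT
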