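import Mathlib
import Pool.Agent.helper59.FI4.Defs
import Pool.Agent.helper1.FI3.SpecH

/-!
# Project fi4 (MP_baa4d7_al), block HEIGHT: all heights in the block are zero

OUTPUT: `HT4_stmt` of `helper59/FI4/Defs`. Idea: let `ψ ∈ B` have height `≥ 1`. For `u ∈ RG` (regular elements) the number `F u = dd M (Cz ⊤ u) θ ψ u` is
`≠ 0` (NZ3 of FI3) and `F u / p` is `IntAt` (UDD). `F u` is an algebraic integer of the field of the `|D|`-th roots of unity and its Galois conjugates are the `F (u ^ s)`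
(DPX), so their product is an integer `≠ 0` divisible by `p ^ φ(|D|)` (NRC), and by the inequality of the arithmetic and geometric means the average of the
`‖F (u ^ s)‖ ^ 2` is at least `p ^ 2` (NAG). So `p ^ 2 * |RG| ≤ ∑_{u ∈ RG} ‖F u‖ ^ 2 ≤ |D| * |I|` (GAV, BS1), which contradicts `Hyp`.

ROWS: one file `Pool/Agent/<seat>/FI4/XXX.lean`, header as here (imports this file), `namespace Pool.Agent.FI4`, auxiliary lemmas prefixed `XXX_`, no sorry, no double quotes in the file,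
no `convert`, no `congr!`. The rows named in the docstring are hypotheses; proved rows of FI, FI3, GR, DI (`QH0 QHG QCG QAV BET QID RR1 CCI HTN C3 QRS QCE IDM ..`) may be added. READY TO USE:
`helper1/FI/BaseQ2`, `helper59/FI/Base` (`IrrOn_pos`, `IrrOn_ne`, `IrrOn_conj`, `SBIb`, ..), `helper70/FI/SpecQ1` (`Q1_D_le`, `Q1_C_le`, `Q1_C_Cz`).
-/

set_option autoImplicit false

namespace Pool.Agent.FI4

open Pool.Agent.helper58.DC Pool.Agent.DI Pool.Agent.GR Pool.Agent.OB Pool.Agent.DR Pool.Agent.FI Pool.Agent.FI3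

/-- **UNV** (short: PORT of `HTU`, `Pool/Agent/helper6/FI3/HTU.lean`; from QHG QH0 QCG QAV BET CCI). The proof of HTU shows more than `ev ψ j (u * w) ≠ 0`. Let `v` be the number in the statement. QH0: `v = cc ψ q`,
`q = trL K D (fun y => j (y * (u * w)⁻¹))`, `CF K q` and `q` is `IntAt` (QHG), so `v` is `IntAt` (CCI, third item). If `InM M v` then as in HTU (`h2.add hS h1`, now with `cc ψ q` which is `InM` instead of `0`) the number `S` there is `InM`, and the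
same contradiction follows. -/
def UNV_stmt : Prop :=
  ∀ (p : ℕ) (M : Ideal (integralClosure ℤ ℂ)), Setup p M → ∀ (G : Type) [Group G] [Finite G]
    (D : Subgroup G) (x : G) (θ χ : G → ℂ), Rt p M D x θ χ → ∃ w ∈ cz D, PReg p w ∧
    ∀ K : Subgroup G, cz D ≤ K → ∀ j : G → ℂ, Idm M K j → Inv (cz D) j →
    (∀ y ∈ cz D, InM M (j y - eBl M (cz D) θ y)) → ∀ ψ ∈ Bl M K θ, ∀ u ∈ D,
    IntAt M ((Nat.card K : ℂ) / Nat.card D * (ev ψ j (u * w) / ψ 1)) ∧
    ¬ InM M ((Nat.card K : ℂ) / Nat.card D * (ev ψ j (u * w) / ψ 1))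

/-- **HTD** (short; from HTN, C3: COPY of the first part (up to `hdvd`) of `HTZ3`, `Pool/Agent/helper59/FI3/HTZ3.lean`). In a good block `|D| * ψ 1` divides `|K|`. -/
def HTD_stmt : Prop :=
  ∀ (p : ℕ) (M : Ideal (integralClosure ℤ ℂ)), Setup p M → ∀ (G : Type) [Group G] [Finite G]
    (D K : Subgroup G) (θ : G → ℂ), Good p M D K θ → ∀ ψ ∈ Bl M K θ,
    ∃ n m : ℕ, ψ 1 = n ∧ Nat.card D * n * m = Nat.card K

/-- **UDD** (medium: compare NZ3, `Pool/Agent/helper27/FI3/NZ3.lean`; from UNV, HTD, TRW, QNW, QID, RR1). Integrality. Proof: `L = cz P`, `K = Cz L u`; `i` (QID), `w` (UNV), `j` (`QI.loc`), `ψ₀ ∈ Bl M K θ`, `c = ev ψ₀ j w` as in NZ3: `ev ψ i (u * w) = c * dd M K θ ψ u`.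
Let `X` be the number in the statement. UNV for `L`, `i`: `A = (|L| / |D|) * (ev ψ i (u w) / ψ 1) = c * X` is `IntAt`. UNV for `K`, `j`, `ψ₀` and the element `1 ∈ D` (`1 * w = w`): `B = (|K| / |D|) * (c / ψ₀ 1)` is `IntAt` and not `InM`,
so `B ≠ 0` and `1 / B` is `IntAt` (`IntAt.inv`). HTD: `|K| / (|D| * ψ₀ 1) = m` is a natural number. `B = m * c` (so `c ≠ 0`), hence `X = A / c = m * A / B` is `IntAt`. -/
def UDD_stmt : Prop :=
  ∀ (p : ℕ) (M : Ideal (integralClosure ℤ ℂ)), Setup p M → ∀ (G : Type) [Group G] [Finite G]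
    (D : Subgroup G) (x : G) (θ χ : G → ℂ), Rt p M D x θ χ → ∀ P ≤ D, ∀ u ∈ D,
    Good p M D (Cz (cz P) u) θ → ∀ ψ ∈ Bl M (cz P) θ,
    IntAt M ((Nat.card (cz P) : ℂ) / Nat.card D * (dd M (Cz (cz P) u) θ ψ u / ψ 1))

/-- **NRC** (short to medium; only Mathlib). Norms of cyclotomic integers. Proof: `K = CyclotomicField n ℚ`, `ζ = IsCyclotomicExtension.zeta n ℚ K`, `x = aeval ζ P`. `Algebra.norm_eq_prod_embeddings ℚ ℂ x`: `algebraMap ℚ ℂ (Algebra.norm ℚ x) = ∏ σ : K →ₐ[ℚ] ℂ, σ x`, `σ x = aeval (σ ζ) P`,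
and `IsPrimitiveRoot.embeddingsEquivPrimitiveRoots` (`Polynomial.cyclotomic.irreducible_rat`) is the bijection `σ ↦ σ ζ` onto `primitiveRoots n ℂ`. `x` is integral over `ℤ`, so `Algebra.norm ℚ x` is a rational number integral over `ℤ` (`Algebra.isIntegral_norm`), i.e. an integer
(`IsIntegrallyClosed.isIntegral_iff`). -/
def NRC_stmt : Prop :=
  ∀ n : ℕ, 0 < n → ∀ P : Polynomial ℤ, ∃ N : ℤ, ∏ μ ∈ primitiveRoots n ℂ, Polynomial.aeval μ P = (N : ℂ)

/-- **NAG** (medium; from NRC, Mathlib, Ari). Proof: `N` from NRC, `φ = Nat.totient n = (primitiveRoots n ℂ).card` (`Complex.card_primitiveRoots`). `N ≠ 0`, and `N / p ^ φ = ∏ (aeval μ P / p)` is `IntAt`, so `p ^ φ ∣ N` (otherwise `N = p ^ k * m`, `k < φ`, `p ∤ m`, and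
`m / p ^ (φ - k)` is `IntAt`, so `m` is `InM` (`InM.prime_mem`): `InM.natCast` for `m.natAbs`), `|N| ≥ p ^ φ`, `∏ ‖aeval μ P‖ ^ 2 ≥ (p ^ 2) ^ φ`. Arithmetic and geometric mean (`Real.inner_le_nnorm_mul_nnorm` is not needed; use `Real.geom_mean_le_arith_mean` or `Real.inner_le..`,
or `Finset.prod_le_pow_card`-free: `Real.geom_mean_le_arith_mean_weighted` with equal weights `1 / φ`). -/
def NAG_stmt : Prop :=
  ∀ (p : ℕ) (M : Ideal (integralClosure ℤ ℂ)), Setup p M → ∀ n : ℕ, 0 < n → ∀ P : Polynomial ℤ,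
    (∀ μ ∈ primitiveRoots n ℂ, Polynomial.aeval μ P ≠ 0 ∧ IntAt M (Polynomial.aeval μ P / (p : ℂ))) →
    (p : ℝ) ^ 2 * Nat.totient n ≤ ∑ μ ∈ primitiveRoots n ℂ, ‖Polynomial.aeval μ P‖ ^ 2

/-- **DPX** (medium; from QRS, QCE, B2). The conjugates of `dd`. Proof: `K = Cz L u`. For `s` prime to `n` (`u ^ n = 1`) `Cz L (u ^ s) = K` (`u` is a power of `u ^ s`: `exists_pow_eq_self_of_coprime`; compare `Cz_pow` of BaseQ2). For `φ ∈ Bl M K θ`: `u` is central in `K`; by QCE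
`φ (u ^ s) / φ 1 = (φ u / φ 1) ^ s` (induction on `s`: `φ (u * v) * φ 1 = φ u * φ v`), so `(φ u / φ 1) ^ n = 1` and `φ u / φ 1 = ζ ^ e φ` (`IsPrimitiveRoot.eq_pow_of_pow_eq_one`). `mt K ψ φ = m φ` is a natural number (QRS). `P = ∑_φ m φ • X ^ e φ` over the finite set
`Bl M K θ` (`IrrOn_fin` of Base). -/
def DPX_stmt : Prop :=
  ∀ (G : Type) [Group G] [Finite G] (M : Ideal (integralClosure ℤ ℂ)) (L : Subgroup G) (θ : G → ℂ),
    ∀ ψ ∈ IrrOn L, ∀ u ∈ L, ∀ n : ℕ, 0 < n → u ^ n = 1 → ∀ ζ : ℂ, IsPrimitiveRoot ζ n →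
    ∃ P : Polynomial ℤ, ∀ s : ℕ, s.Coprime n →
      dd M (Cz L (u ^ s)) θ ψ (u ^ s) = Polynomial.aeval (ζ ^ s) P

/-- **GAV** (short; only Mathlib). Averaging. Proof: for `s` prime to `n` the map `u ↦ u ^ s` is injective on `R` (`s * t ≡ 1` modulo `n`, `u ^ n = 1`) and maps `R` to `R`, so `∑_{u ∈ R} f (u ^ s) = ∑_{u ∈ R} f u`. Sum over `s`: there are `Nat.totient n` of them
(`Nat.totient_eq_card_coprime`). -/
def GAV_stmt : Prop :=
  ∀ (G : Type) [Group G] (R : Finset G) (n : ℕ), 0 < n → (∀ u ∈ R, u ^ n = 1) →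
    (∀ u ∈ R, ∀ s : ℕ, s.Coprime n → u ^ s ∈ R) → ∀ (f : G → ℝ) (c : ℝ),
    (∀ u ∈ R, c * Nat.totient n ≤ ∑ s ∈ (Finset.range n).filter (fun s => s.Coprime n), f (u ^ s)) →
    c * R.card ≤ ∑ u ∈ R, f u

/-- **BS1** (short; from BES4 of block P4, for the function `a` which is `1` at `ψ` and `0` elsewhere; or from DOR4, DDT4 with `bessel` of `helper26/FI4/BES`). Bessel's inequality for one character. -/
def BS1_stmt : Prop :=
  ∀ (p : ℕ) (M : Ideal (integralClosure ℤ ℂ)), Setup p M → p ≠ 2 → ∀ (G : Type) [Group G] [Finite G]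
    (D : Subgroup G) (x : G) (θ χ : G → ℂ), LoA p M D x θ χ → ∀ ψ ∈ Bl M (⊤ : Subgroup G) θ,
    ∑ᶠ u ∈ RG M D θ, ‖dd M (Cz (⊤ : Subgroup G) u) θ ψ u‖ ^ 2 ≤ (Nat.card D : ℝ) * iI M D θ

/-- **IAP** (short; from UDD, NZ3, QID, QHT, QUN). Let `ψ 1 = d` and let `p * |G|` divide `|D| * d` up to a factor prime to `p` (height `≥ 1`). Proof: `P = ⊥`, `cz ⊥ = ⊤` (`QGG_cz_bot` of `helper12/FI/QGG`), UDD: `X = (|G| / |D|) * (dd / ψ 1)` is `IntAt`, `dd / p = X * (|D| * d / (|G| * p))`,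
and `|D| * d / (|G| * p)` is `IntAt` because its `p`-adic valuation is `≥ 0` (write numerator and denominator as `p ^ k` times a number prime to `p`: proof of QUN, `Pool/Agent/*/FIB/QUN.lean`). `≠ 0`: NZ3. -/
def IAP_stmt : Prop :=
  ∀ (p : ℕ) (M : Ideal (integralClosure ℤ ℂ)), Setup p M → ∀ (G : Type) [Group G] [Finite G]
    (D : Subgroup G) (x : G) (θ χ : G → ℂ), Rt p M D x θ χ → ∀ u ∈ D,
    Good p M D (Cz (cz (⊥ : Subgroup G)) u) θ → ∀ ψ ∈ Bl M (⊤ : Subgroup G) θ, ∀ d : ℕ, ψ 1 = d → d ≠ 0 →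
    padicValNat p (Nat.card G) + 1 ≤ padicValNat p (Nat.card D) + padicValNat p d →
    dd M (Cz (⊤ : Subgroup G) u) θ ψ u ≠ 0 ∧ IntAt M (dd M (Cz (⊤ : Subgroup G) u) θ ψ u / (p : ℂ))

/-- **HTA** (medium; assembly of HT4; from LOA, GRG, QID, QHT, IAP, NAG, DPX, GAV, BS1, TPR, helper1). See `HT4_stmt`. Proof: `Hyp` gives `p ≠ 2` (`RG ⊆ D`, `iI ≥ 1`). `Blk M χ ⊤ ⊆ Bl M ⊤ θ` (TPR, `Rt.ind`). QHT for `P = ⊥`: `v(|G|) + v(N) = a + v(d)`, `ψ 1 = d`. If `v(N) = 0` this is the claim. Otherwise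
IAP applies for all `u ∈ RG` (GRG), also for the `u ^ s ∈ RG`. `n = |D|`, `ζ = exp (2 π i / n)`; `P` from DPX for `u`; every `μ ∈ primitiveRoots n ℂ` is `ζ ^ s`, `s < n` prime to `n`; NAG, and the sum over `primitiveRoots n ℂ` is the sum over the `s`. GAV with `c = p ^ 2`, BS1. -/
def HTA_stmt : Prop := HT4_stmt

end Pool.Agent.FI4
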